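import Mathlib

/-!
Counterexample to product preservation of K-reflections for adequate K.

`KK` is the class of T0 spaces in which every nonempty countably directed chain (for the
specialization order) has the closure of a point as its closure.  It contains the sober spaces,
is closed under homeomorphisms and is adequate.  The spaces `XX n` (the ordinal `ω_(n+1)` with the
Alexandrov topology) are `KK`-determined in themselves, but their product is not.
-/

set_option autoImplicit false

open Set Topology TopologicalSpace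
open Cardinal hiding univ

universe u

namespace Pool.Agent.P.MP_958dc4_gt

/-- nonempty, countably directed chain for the specialization order -/
def Good {Y : Type u} [TopologicalSpace Y] (C : Set Y) : Prop :=
  C.Nonempty ∧ (∀ a ∈ C, ∀ b ∈ C, a ⤳ b ∨ b ⤳ a) ∧
    ∀ v : ℕ → Y, (∀ n, v n ∈ C) → ∃ c ∈ C, ∀ n, c ⤳ v n

/-- the class K of the counterexample -/
def KK (Y : Type u) [TopologicalSpace Y] : Prop :=
  T0Space Y ∧ ∀ C : Set Y, Good C → ∃ y, closure C = closure {y}

theorem Good.image {X Y : Type u} [TopologicalSpace X] [TopologicalSpace Y] {C : Set X}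
    (hC : Good C) {f : X → Y} (hf : Continuous f) : Good (f '' C) := by
  obtain ⟨h1, h2, h3⟩ := hC
  refine ⟨h1.image f, ?_, ?_⟩
  · rintro _ ⟨a, ha, rfl⟩ _ ⟨b, hb, rfl⟩
    exact (h2 a ha b hb).imp (fun h => h.map hf) (fun h => h.map hf)
  · intro v hv
    choose w hw hwv using hv
    obtain ⟨c, hc, hcw⟩ := h3 w hw
    exact ⟨f c, ⟨c, hc, rfl⟩, fun n => hwv n ▸ (hcw n).map hf⟩

theorem Good.isIrreducible {Y : Type u} [TopologicalSpace Y] {C : Set Y} (hC : Good C) :
    IsIrreducible C := by
  obtain ⟨h1, h2, -⟩ := hC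
  refine ⟨h1, ?_⟩
  rintro U V hU hV ⟨a, ha, haU⟩ ⟨b, hb, hbV⟩
  rcases h2 a ha b hb with h | h
  · exact ⟨a, ha, haU, h.mem_open hV hbV⟩
  · exact ⟨b, hb, h.mem_open hU haU, hbV⟩

theorem KK_of_sober (X : Type u) [TopologicalSpace X] (h0 : T0Space X) (hs : QuasiSober X) :
    KK X := by
  refine ⟨h0, fun C hC => ?_⟩
  obtain ⟨x, hx⟩ := QuasiSober.sober hC.isIrreducible.closure isClosed_closure
  exact ⟨x, hx.symm⟩

theorem KK_homeo (X Y : Type u) [TopologicalSpace X] [TopologicalSpace Y] (e : X ≃ₜ Y)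
    (h : KK X) : KK Y := by
  obtain ⟨h0, h1⟩ := h
  refine ⟨e.t0Space, fun C hC => ?_⟩
  obtain ⟨x, hx⟩ := h1 _ (hC.image e.symm.continuous)
  refine ⟨e x, ?_⟩
  have := congrArg (fun S => e '' S) hx
  simp only [e.image_closure, image_singleton] at this
  rw [← this, ← image_comp]
  simp

/-- closure of a chain in a topology given by a subbase -/
theorem mem_closure_of_generateFrom {Z : Type u} (g : Set (Set Z)) (C : Set Z) (t : Z)
    (hne : C.Nonempty)
    (hch : ∀ a ∈ C, ∀ b ∈ C, @Specializes Z (generateFrom g) a b ∨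
      @Specializes Z (generateFrom g) b a)
    (hb : ∀ W ∈ g, t ∈ W → ∃ c ∈ C, c ∈ W) : t ∈ @closure Z (generateFrom g) C := by
  let : TopologicalSpace Z := generateFrom g
  have key : ∀ W, GenerateOpen g W → t ∈ W → ∃ c ∈ C, c ∈ W := by
    intro W hW
    induction hW with
    | basic W hW => exact hb W hW
    | univ => intro _; obtain ⟨c, hc⟩ := hne; exact ⟨c, hc, trivial⟩
    | inter W₁ W₂ h₁ h₂ ih₁ ih₂ =>
      rintro ⟨t₁, t₂⟩
      obtain ⟨c₁, hc₁, hw₁⟩ := ih₁ t₁
      obtain ⟨c₂, hc₂, hw₂⟩ := ih₂ t₂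
      rcases hch c₁ hc₁ c₂ hc₂ with h | h
      · exact ⟨c₁, hc₁, hw₁, h.mem_open h₂ hw₂⟩
      · exact ⟨c₂, hc₂, h.mem_open h₁ hw₁, hw₂⟩
    | sUnion S _ ih =>
      rintro ⟨W, hW, htW⟩
      obtain ⟨c, hc, hcW⟩ := ih W hW htW
      exact ⟨c, hc, W, hW, hcW⟩
  rw [mem_closure_iff]
  intro W hW htW
  obtain ⟨c, hc, hcW⟩ := key W hW htW
  exact ⟨c, hcW, hc⟩

theorem specializes_generateFrom {Z : Type u} (g : Set (Set Z)) (a b : Z) :
    @Specializes Z (generateFrom g) a b ↔ ∀ W ∈ g, b ∈ W → a ∈ W := by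
  let : TopologicalSpace Z := generateFrom g
  constructor
  · intro h W hW hb
    exact h.mem_open (GenerateOpen.basic W hW) hb
  · intro h
    rw [specializes_iff_mem_closure]
    refine mem_closure_of_generateFrom g {a} b (singleton_nonempty a) ?_ ?_
    · rintro _ rfl _ rfl
      exact Or.inl specializes_rfl
    · intro W hW hb
      exact ⟨a, rfl, h W hW hb⟩

section PH

variable (K : ∀ (X : Type u) [TopologicalSpace X], Prop)

/-- closed K-determined subsets -/
abbrev PH (X : Type u) [TopologicalSpace X] : Type u :=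
  {A : Set X // IsClosed A ∧ ∀ (Y : Type u) [TopologicalSpace Y], K Y →
            ∀ f : X → Y, Continuous f → ∃! y : Y, closure (f '' A) = closure {y}}

/-- lower Vietoris topology -/
abbrev phTop (X : Type u) [TopologicalSpace X] : TopologicalSpace (PH K X) :=
  TopologicalSpace.generateFrom
          {S | ∃ U : Set X, IsOpen U ∧ S = {A | (A.1 ∩ U).Nonempty}}

variable {K}
variable {X : Type u} [TopologicalSpace X]

theorem ph_specializes (A B : PH K X) : @Specializes _ (phTop K X) A B ↔ B.1 ⊆ A.1 := by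
  rw [specializes_generateFrom]
  constructor
  · intro h x hx
    by_contra hxA
    have := h {C | (C.1 ∩ A.1ᶜ).Nonempty} ⟨_, A.2.1.isOpen_compl, rfl⟩ ⟨x, hx, hxA⟩
    obtain ⟨y, hy, hy'⟩ := this
    exact hy' hy
  · rintro h _ ⟨U, hU, rfl⟩ ⟨x, hx, hxU⟩
    exact ⟨x, h hx, hxU⟩

theorem ph_t0 : @T0Space _ (phTop K X) := by
  let := phTop K X
  refine ⟨fun A B h => ?_⟩
  have h1 := (ph_specializes A B).1 h.specializes
  have h2 := (ph_specializes B A).1 h.specializes'
  exact Subtype.ext (Subset.antisymm h2 h1)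

/-- the extension of `f` to `PH` -/
noncomputable def ext {Y : Type u} [TopologicalSpace Y] (hY : K Y) (f : X → Y)
    (hf : Continuous f) (A : PH K X) : Y :=
  (A.2.2 Y hY f hf).exists.choose

theorem ext_spec {Y : Type u} [TopologicalSpace Y] (hY : K Y) (f : X → Y)
    (hf : Continuous f) (A : PH K X) : closure (f '' A.1) = closure {ext hY f hf A} :=
  (A.2.2 Y hY f hf).exists.choose_spec

theorem ext_continuous {Y : Type u} [TopologicalSpace Y] (hY : K Y) (f : X → Y)
    (hf : Continuous f) : @Continuous _ _ (phTop K X) _ (ext hY f hf) := by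
  let := phTop K X
  refine ⟨fun U hU => ?_⟩
  have : ext hY f hf ⁻¹' U = {A : PH K X | (A.1 ∩ f ⁻¹' U).Nonempty} := by
    ext A
    simp only [mem_preimage, mem_ofPred_eq]
    constructor
    · intro h
      have h1 : ext hY f hf A ∈ closure (f '' A.1) := by
        rw [ext_spec hY f hf A]; exact subset_closure rfl
      obtain ⟨_, hyU, x, hx, rfl⟩ := mem_closure_iff.1 h1 U hU h
      exact ⟨x, hx, hyU⟩
    · rintro ⟨x, hx, hxU⟩
      have h1 : f x ∈ closure {ext hY f hf A} := by
        rw [← ext_spec hY f hf A]; exact subset_closure ⟨x, hx, rfl⟩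
      exact (specializes_iff_mem_closure.2 h1).mem_open hU hxU
  rw [this]
  exact GenerateOpen.basic _ ⟨_, hU.preimage hf, rfl⟩

theorem eq_of_closure_eq {Y : Type u} [TopologicalSpace Y] [T0Space Y] {a b : Y}
    (h : closure ({a} : Set Y) = closure {b}) : a = b :=
  (inseparable_iff_closure_eq.2 h).eq

/-- the unit `x ↦ closure {x}` -/
def eta (hK : ∀ (Y : Type u) [TopologicalSpace Y], K Y → T0Space Y) (x : X) : PH K X :=
  ⟨closure {x}, isClosed_closure, fun Y _ hY f hf => by
    have := hK Y hY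
    have h : closure (f '' closure {x}) = closure {f x} := by
      rw [closure_image_closure hf, image_singleton]
    exact ⟨f x, h, fun y hy => eq_of_closure_eq (hy.symm.trans h)⟩⟩

theorem eta_continuous (hK : ∀ (Y : Type u) [TopologicalSpace Y], K Y → T0Space Y) :
    @Continuous X _ _ (phTop K X) (eta hK) := by
  rw [continuous_generateFrom_iff]
  rintro _ ⟨U, hU, rfl⟩
  convert hU using 1
  ext x
  simp only [eta, mem_preimage, mem_ofPred_eq]
  constructor
  · rintro ⟨y, hy, hyU⟩
    exact (specializes_iff_mem_closure.2 hy).mem_open hU hyU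
  · intro hx
    exact ⟨x, subset_closure rfl, hx⟩

theorem ph_universal (hK : ∀ (Y : Type u) [TopologicalSpace Y], K Y → T0Space Y)
    (hadq : @K (PH K X) (phTop K X)) (Y : Type u) [TopologicalSpace Y] (hY : K Y) (f : X → Y) (hf : Continuous f) :
    ∃! g : PH K X → Y, @Continuous _ _ (phTop K X) _ g ∧ g ∘ eta hK = f := by
  let := phTop K X
  have := hK Y hY
  refine ⟨ext hY f hf, ⟨ext_continuous hY f hf, ?_⟩, ?_⟩
  · funext x
    apply eq_of_closure_eq
    have := ext_spec hY f hf (eta hK x)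
    simp only [Function.comp]
    rw [← this]
    simp only [eta]
    rw [closure_image_closure hf, image_singleton]
  · rintro g ⟨hg, hgf⟩
    funext A
    apply eq_of_closure_eq
    rw [← ext_spec hY f hf A]
    apply Subset.antisymm
    · refine closure_minimal ?_ isClosed_closure
      rintro _ rfl
      rw [mem_closure_iff]
      intro U hU hAU
      have hA : A ∈ closure (eta hK '' A.1) := by
        obtain ⟨B, hB, -⟩ := A.2.2 (PH K X) hadq (eta hK) (eta_continuous hK)
        rw [hB, ← specializes_iff_mem_closure, ph_specializes]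
        intro x hx
        have h1 : eta hK x ∈ closure {B} := by
          rw [← hB]; exact subset_closure ⟨x, hx, rfl⟩
        rw [← specializes_iff_mem_closure, ph_specializes] at h1
        exact h1 (subset_closure rfl)
      obtain ⟨_, hW, x, hx, rfl⟩ := mem_closure_iff.1 hA _ (hU.preimage hg) hAU
      exact ⟨f x, by rw [← hgf]; exact hW, x, hx, rfl⟩
    · refine closure_minimal ?_ isClosed_closure
      rintro _ ⟨x, hx, rfl⟩
      rw [← specializes_iff_mem_closure, ← hgf]
      refine Specializes.map ((ph_specializes _ _).2 ?_) hg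
      exact closure_minimal (singleton_subset_iff.2 hx) A.2.1

end PH

theorem KK_t0 (Y : Type u) [TopologicalSpace Y] (h : KK Y) : T0Space Y := h.1

theorem KK_adequate (X : Type u) [TopologicalSpace X] :
    @KK (PH (fun Y _ => KK Y) X) (phTop (fun Y _ => KK Y) X) := by
  let := phTop (fun Y _ => KK Y) X
  refine ⟨ph_t0, fun C hC => ?_⟩
  let A : PH (fun Y _ => KK Y) X := ⟨closure (⋃ B ∈ C, B.1), isClosed_closure, by
    intro Y _ hY f hf
    have := hY.1
    obtain ⟨y, hy⟩ := hY.2 _ (hC.image (ext_continuous (K := fun Y _ => KK Y) hY f hf))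
    have h : closure (f '' closure (⋃ B ∈ C, B.1)) = closure {y} := by
      rw [closure_image_closure hf, ← hy]
      apply Subset.antisymm
      · refine closure_minimal ?_ isClosed_closure
        rintro _ ⟨x, hx, rfl⟩
        simp only [mem_iUnion] at hx
        obtain ⟨B, hB, hxB⟩ := hx
        have h1 : f x ∈ closure {ext (K := fun Y _ => KK Y) hY f hf B} := by
          rw [← ext_spec]; exact subset_closure ⟨x, hxB, rfl⟩
        exact closure_mono (singleton_subset_iff.2 (mem_image_of_mem _ hB)) h1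
      · refine closure_minimal ?_ isClosed_closure
        rintro _ ⟨B, hB, rfl⟩
        have h1 : ext (K := fun Y _ => KK Y) hY f hf B ∈ closure (f '' B.1) := by
          rw [ext_spec (K := fun Y _ => KK Y) hY f hf B]; exact subset_closure rfl
        refine closure_mono (image_mono ?_) h1
        intro x hx
        simp only [mem_iUnion]
        exact ⟨B, hB, hx⟩
    exact ⟨y, h, fun z hz => eq_of_closure_eq (hz.symm.trans h)⟩⟩
  refine ⟨A, Subset.antisymm ?_ ?_⟩
  · refine closure_minimal ?_ isClosed_closure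
    intro B hB
    rw [← specializes_iff_mem_closure, ph_specializes]
    intro x hx
    apply subset_closure
    simp only [mem_iUnion]
    exact ⟨B, hB, hx⟩
  · refine closure_minimal ?_ isClosed_closure
    rintro _ rfl
    refine mem_closure_of_generateFrom _ C A hC.1 hC.2.1 ?_
    rintro _ ⟨U, hU, rfl⟩ ⟨x, hx, hxU⟩
    obtain ⟨z, hzU, hz⟩ := mem_closure_iff.1 hx U hU hxU
    simp only [mem_iUnion] at hz
    obtain ⟨B, hB, hzB⟩ := hz
    exact ⟨B, hB, z, hzB, hzU⟩

/-- the well order of type `ω_(n+1)` -/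
abbrev LL (n : ℕ) : Type u := (ℵ_ ((n : Ordinal.{u}) + 1)).ord.ToType

theorem LL_bdd (n : ℕ) {ι : Type u} (hι : #ι < ℵ_ ((n : Ordinal.{u}) + 1)) (v : ι → LL.{u} n) :
    ∃ c, ∀ i, v i < c := by
  have hreg := isRegular_aleph_add_one (n : Ordinal.{u})
  by_contra h
  push Not at h
  have h1 : (⋃ i, Iic (v i)) = univ := by
    ext c
    simpa using h c
  have h2 : #(⋃ i, Iic (v i) : Set (LL.{u} n)) < ℵ_ ((n : Ordinal.{u}) + 1) := by
    rw [card_iUnion_lt_iff_forall_of_isRegular hreg hι]
    intro i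
    rw [← Iio_insert]
    refine (mk_insert_le).trans_lt (add_lt_of_lt hreg.aleph0_le ?_ ?_)
    · simpa using mk_Iio_lt (v i)
    · exact one_lt_aleph0.trans_le hreg.aleph0_le
  rw [h1] at h2
  simp at h2

theorem aleph0_lt (n : ℕ) : ℵ₀ < ℵ_ ((n : Ordinal.{u}) + 1) := by
  rw [← aleph_zero, aleph_lt_aleph]
  exact lt_of_le_of_lt (by simp) (Order.lt_add_one_iff.2 le_rfl)

theorem LL_bdd_nat (n : ℕ) (v : ℕ → LL.{u} n) : ∃ c, ∀ i, v i < c := by
  obtain ⟨c, hc⟩ := LL_bdd n (ι := ULift.{u} ℕ) (by simp)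
    (fun i => v i.down)
  exact ⟨c, fun i => hc ⟨i⟩⟩

theorem LL_bdd_lt {n m : ℕ} (h : n < m) (v : LL.{u} n → LL.{u} m) : ∃ c, ∀ i, v i < c := by
  refine LL_bdd m ?_ v
  rw [mk_ord_toType, aleph_lt_aleph]
  have : ((n + 1 : ℕ) : Ordinal.{u}) < ((m + 1 : ℕ) : Ordinal.{u}) := by
    exact_mod_cast Nat.succ_lt_succ h
  simpa using this

instance LL_nonempty (n : ℕ) : Nonempty (LL.{u} n) := by
  obtain ⟨c, -⟩ := LL_bdd n (ι := PEmpty.{u+1}) (by simpa using aleph_pos _) (fun i => i.elim)
  exact ⟨c⟩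

/-- `ω_(n+1)` with the Alexandrov topology -/
abbrev XX (n : ℕ) : Type u := Topology.WithUpperSet (LL.{u} n)

theorem XX_specializes (n : ℕ) (a b : XX.{u} n) : a ⤳ b ↔ b ≤ a :=
  Topology.IsUpperSet.specializes_iff_le

instance XX_t0 (n : ℕ) : T0Space (XX.{u} n) :=
  ⟨fun _ _ h => le_antisymm (α := LL.{u} n) ((XX_specializes n _ _).1 h.specializes')
    ((XX_specializes n _ _).1 h.specializes)⟩

theorem XX_good (n : ℕ) : Good (univ : Set (XX.{u} n)) := by
  refine ⟨⟨Classical.choice (LL_nonempty n), trivial⟩, ?_, ?_⟩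
  · intro a _ b _
    rw [XX_specializes, XX_specializes]
    exact le_total (α := LL.{u} n) _ _
  · intro v _
    obtain ⟨c, hc⟩ := LL_bdd_nat n v
    exact ⟨c, trivial, fun i => (XX_specializes n _ _).2 (hc i).le⟩

/-- tuples of lower sets which are full in only finitely many coordinates -/
def BB : Type u :=
  {A : ∀ n : ℕ, Set (LL.{u} n) // (∀ n, IsLowerSet (A n)) ∧ {n | A n = univ}.Finite}

/-- subbase of the topology of `BB` -/
def BBsub : Set (Set BB.{u}) := {W | ∃ (n : ℕ) (x : LL.{u} n), W = {A | x ∈ A.1 n}}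

instance : TopologicalSpace BB.{u} := generateFrom BBsub

theorem BB_specializes (A B : BB.{u}) : A ⤳ B ↔ ∀ n, B.1 n ⊆ A.1 n := by
  refine (specializes_generateFrom BBsub A B).trans ⟨?_, ?_⟩
  · intro h n x hx
    exact h _ ⟨n, x, rfl⟩ hx
  · rintro h _ ⟨n, x, rfl⟩ hx
    exact h n hx

theorem BB_KK : KK BB.{u} := by
  refine ⟨⟨fun A B h => ?_⟩, fun C hC => ?_⟩
  · have h1 := (BB_specializes A B).1 h.specializes
    have h2 := (BB_specializes B A).1 h.specializes'
    exact Subtype.ext (funext fun n => Subset.antisymm (h2 n) (h1 n))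
  obtain ⟨hne, hch, hdir⟩ := hC
  -- coordinates where the union is full but no member is
  have key : ∀ n m, n < m → (⋃ A ∈ C, A.1 n) = univ → (⋃ A ∈ C, A.1 m) = univ →
      (∀ A ∈ C, A.1 n ≠ univ) → (∀ A ∈ C, A.1 m ≠ univ) → False := by
    intro n m hnm hn hm hn' hm'
    have h1 : ∀ x : LL.{u} n, ∃ A ∈ C, x ∈ A.1 n := by
      intro x
      have : x ∈ ⋃ A ∈ C, A.1 n := hn ▸ mem_univ x
      simpa using this
    choose c hcC hcx using h1
    have h2 : ∀ x : LL.{u} n, ∃ y, y ∉ (c x).1 m := fun x =>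
      (ne_univ_iff_exists_notMem _).1 (hm' _ (hcC x))
    choose v hv using h2
    obtain ⟨b, hb⟩ := LL_bdd_lt hnm v
    have : b ∈ ⋃ A ∈ C, A.1 m := hm ▸ mem_univ b
    simp only [mem_iUnion] at this
    obtain ⟨A, hA, hbA⟩ := this
    refine hn' A hA (eq_univ_of_forall fun x => ?_)
    rcases hch A hA (c x) (hcC x) with h | h
    · exact (BB_specializes _ _).1 h n (hcx x)
    · exact absurd ((c x).2.1 m (hb x).le ((BB_specializes _ _).1 h m hbA)) (hv x)
  have fin1 : {n | (⋃ A ∈ C, A.1 n) = univ ∧ ∀ A ∈ C, A.1 n ≠ univ}.Finite := by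
    refine Set.Subsingleton.finite ?_
    rintro n ⟨hn, hn'⟩ m ⟨hm, hm'⟩
    rcases lt_trichotomy n m with h | h | h
    · exact (key n m h hn hm hn' hm').elim
    · exact h
    · exact (key m n h hm hn hm' hn').elim
  have fin2 : {n | ∃ A ∈ C, A.1 n = univ}.Finite := by
    have h1 : ∀ n, ∃ A ∈ C, (∃ B ∈ C, B.1 n = univ) → A.1 n = univ := by
      intro n
      by_cases h : ∃ B ∈ C, B.1 n = univ
      · obtain ⟨B, hB, hB'⟩ := h
        exact ⟨B, hB, fun _ => hB'⟩
      · obtain ⟨B, hB⟩ := hne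
        exact ⟨B, hB, fun h' => absurd h' h⟩
    choose v hvC hv using h1
    obtain ⟨c, -, hc⟩ := hdir v hvC
    refine c.2.2.subset fun n hn => ?_
    exact eq_univ_of_univ_subset (hv n hn ▸ (BB_specializes _ _).1 (hc n) n)
  let T : BB.{u} := ⟨fun n => ⋃ A ∈ C, A.1 n,
    fun n => isLowerSet_iUnion₂ fun A _ => A.2.1 n, by
      refine (fin1.union fin2).subset fun n hn => ?_
      by_cases h : ∃ A ∈ C, A.1 n = univ
      · exact Or.inr h
      · push Not at h
        exact Or.inl ⟨hn, h⟩⟩
  refine ⟨T, Subset.antisymm ?_ ?_⟩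
  · refine closure_minimal ?_ isClosed_closure
    intro B hB
    rw [← specializes_iff_mem_closure, BB_specializes]
    intro n
    exact subset_biUnion_of_mem (u := fun B : BB.{u} => B.1 n) hB
  · refine closure_minimal ?_ isClosed_closure
    rintro _ rfl
    refine mem_closure_of_generateFrom BBsub C T hne hch ?_
    rintro _ ⟨n, x, rfl⟩ hx
    have hx' : x ∈ ⋃ A ∈ C, A.1 n := hx
    simp only [mem_iUnion] at hx'
    obtain ⟨A, hA, hxA⟩ := hx'
    exact ⟨A, hA, hxA⟩

/-- the map from the product to `BB` -/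
def ff (x : ∀ n, XX.{u} n) : BB.{u} :=
  ⟨fun n => Iic (Topology.WithUpperSet.ofUpperSet (x n)), fun n => isLowerSet_Iic _, by
    convert finite_empty
    ext n
    simp only [mem_ofPred_eq, mem_empty_iff_false, iff_false]
    intro h
    obtain ⟨c, hc⟩ := LL_bdd_nat n (fun _ => Topology.WithUpperSet.ofUpperSet (x n))
    have : c ∈ Iic (Topology.WithUpperSet.ofUpperSet (x n)) := h ▸ mem_univ c
    exact absurd (hc 0) (not_lt.2 this)⟩

theorem ff_continuous : Continuous ff.{u} := by
  refine continuous_generateFrom_iff.2 ?_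
  rintro _ ⟨n, y, rfl⟩
  have : ff ⁻¹' {A : BB.{u} | y ∈ A.1 n} =
      (fun x : ∀ n, XX.{u} n => x n) ⁻¹' Ici (Topology.WithUpperSet.toUpperSet y) := rfl
  rw [this]
  exact (Topology.IsUpperSet.isOpen_iff_isUpperSet.2 (isUpperSet_Ici _)).preimage
    (continuous_apply n)

/-- no point of `BB` lies above the whole image of `ff` -/
theorem ff_unbounded (T : BB.{u}) (h : ∀ x, T ⤳ ff x) : False := by
  classical
  have hT : ∀ n, T.1 n = univ := by
    intro n
    refine eq_univ_of_forall fun y => ?_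
    have := (BB_specializes _ _).1
      (h (Function.update (fun n => Classical.choice (LL_nonempty n)) n y)) n
    apply this
    simp only [ff, Function.update_self]
    exact le_refl y
  have := T.2.2
  simp only [hT, ofPred_true] at this
  exact infinite_univ this

/-- the whole space as a point of the reflection -/
def topPH (n : ℕ) : PH (fun Y _ => KK Y) (XX.{u} n) :=
  ⟨univ, isClosed_univ, fun Y _ hY f hf => by
    have := hY.1
    obtain ⟨y, hy⟩ := hY.2 _ ((XX_good n).image hf)
    exact ⟨y, hy, fun z hz => eq_of_closure_eq (hz.symm.trans hy)⟩⟩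

theorem topPH_specializes (n : ℕ) (A : PH (fun Y _ => KK Y) (XX.{u} n)) :
    @Specializes _ (phTop _ _) (topPH n) A :=
  (ph_specializes _ _).2 (subset_univ _)

end Pool.Agent.P.MP_958dc4_gt
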